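import Mathlib

set_option autoImplicit false

namespace Pool.Agent.Helper31_Elliptic

open Polynomial

/-- A monic integer polynomial having a real root of multiplicity more than half the degree has
that root an integer. -/
theorem int_of_large_mult (p : Polynomial ℤ) (hp : p.Monic) (μ : ℝ)
    (h : p.natDegree < 2 * (p.map (Int.castRingHom ℝ)).rootMultiplicity μ) :
    ∃ m : ℤ, μ = m := by
  classical
  set k := (p.map (Int.castRingHom ℝ)).rootMultiplicity μ with hk
  have hk0 : 0 < k := by omega
  have hpR : (p.map (Int.castRingHom ℝ)).Monic := hp.map _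
  have hroot : (p.map (Int.castRingHom ℝ)).IsRoot μ := by
    rw [← Polynomial.rootMultiplicity_pos hpR.ne_zero]; exact hk0
  have hint : IsIntegral ℤ μ := by
    refine ⟨p, hp, ?_⟩
    have := hroot
    rw [Polynomial.IsRoot.def, Polynomial.eval_map] at this
    simpa using this
  have hintQ : IsIntegral ℚ μ := hint.tower_top
  set P : Polynomial ℚ := p.map (Int.castRingHom ℚ) with hP
  have hPm : P.Monic := hp.map _
  have hPR : P.map (algebraMap ℚ ℝ) = p.map (Int.castRingHom ℝ) := by
    rw [hP, Polynomial.map_map]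
    congr 1
  have hdegP : P.natDegree = p.natDegree := hp.natDegree_map _
  set q : Polynomial ℚ := minpoly ℚ μ with hq
  have hqirr : Irreducible q := minpoly.irreducible hintQ
  have hqm : q.Monic := minpoly.monic hintQ
  have hqsep : q.Separable := hqirr.separable
  have hfin : FiniteMultiplicity q P := by
    apply FiniteMultiplicity.of_prime_left hqirr.prime hPm.ne_zero
  obtain ⟨c, hc, hcn⟩ := hfin.exists_eq_pow_mul_and_not_dvd
  set m := multiplicity q P with hm
  have hc0 : c ≠ 0 := by
    rintro rfl
    simp at hcn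
  have hqR0 : q.map (algebraMap ℚ ℝ) ≠ 0 := (hqm.map _).ne_zero
  have hcR0 : c.map (algebraMap ℚ ℝ) ≠ 0 := by
    rwa [Ne, Polynomial.map_eq_zero]
  have hmulR : P.map (algebraMap ℚ ℝ) = (q.map (algebraMap ℚ ℝ)) ^ m * c.map (algebraMap ℚ ℝ) := by
    conv_lhs => rw [hc]
    simp
  have hcroot : (c.map (algebraMap ℚ ℝ)).rootMultiplicity μ = 0 := by
    rw [Polynomial.rootMultiplicity_eq_zero_iff]
    intro hcr
    exfalso
    apply hcn
    apply minpoly.dvd
    rw [Polynomial.IsRoot.def, Polynomial.eval_map] at hcr
    simpa [Polynomial.aeval_def] using hcr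
  have hq1 : (q.map (algebraMap ℚ ℝ)).rootMultiplicity μ ≤ 1 :=
    Polynomial.rootMultiplicity_le_one_of_separable hqsep.map μ
  have hkle : k ≤ m := by
    have : k = m * (q.map (algebraMap ℚ ℝ)).rootMultiplicity μ := by
      rw [hk, ← hPR, hmulR, Polynomial.rootMultiplicity_mul, hcroot, add_zero]
      · have : ∀ j : ℕ, ((q.map (algebraMap ℚ ℝ)) ^ j).rootMultiplicity μ
            = j * (q.map (algebraMap ℚ ℝ)).rootMultiplicity μ := by
          intro j
          induction j with
          | zero => simp
          | succ j ih =>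
            rw [pow_succ, Polynomial.rootMultiplicity_mul, ih]
            · ring
            · exact mul_ne_zero (pow_ne_zero _ hqR0) hqR0
        exact this m
      · exact mul_ne_zero (pow_ne_zero _ hqR0) hcR0
    rw [this]
    calc m * (q.map (algebraMap ℚ ℝ)).rootMultiplicity μ ≤ m * 1 := Nat.mul_le_mul_left _ hq1
      _ = m := by ring
  have hdeg : m * q.natDegree ≤ p.natDegree := by
    rw [← hdegP]
    conv_rhs => rw [hc]
    rw [Polynomial.natDegree_mul (pow_ne_zero _ hqm.ne_zero) hc0, Polynomial.natDegree_pow]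
    omega
  have hqd : q.natDegree < 2 := by
    by_contra hcon
    push Not at hcon
    have : m * 2 ≤ m * q.natDegree := Nat.mul_le_mul_left _ hcon
    omega
  have hmem : μ ∈ (algebraMap ℚ ℝ).range := by
    by_contra hcon
    have h2 := (minpoly.two_le_natDegree_iff hintQ).2 hcon
    rw [← hq] at h2
    omega
  obtain ⟨t, rfl⟩ := hmem
  have ht : IsIntegral ℤ t := by
    rw [← isIntegral_algebraMap_iff (algebraMap ℚ ℝ).injective (R := ℤ)]
    exact hint
  obtain ⟨y, hy⟩ := IsIntegrallyClosed.isIntegral_iff.mp ht
  refine ⟨y, ?_⟩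
  rw [← hy]
  simp

end Pool.Agent.Helper31_Elliptic
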