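import Mathlib

set_option autoImplicit false

namespace Pool.Agent.Helper31_Elliptic

/-- Trace (frame) inequality: `(∑ ‖x_i‖²)² ≤ d ∑_{i,j} ⟨x_i, x_j⟩²` for vectors of `ℝ^d`. -/
theorem frame_bound {ι : Type*} (s : Finset ι) (d : ℕ) (x : ι → EuclideanSpace ℝ (Fin d)) :
    (∑ i ∈ s, ‖x i‖ ^ 2) ^ 2 ≤ d * ∑ i ∈ s, ∑ j ∈ s, (inner ℝ (x i) (x j)) ^ 2 := by
  classical
  have hin : ∀ i j, inner ℝ (x i) (x j) = ∑ a, x i a * x j a := by
    intro i j
    rw [PiLp.inner_apply]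
    apply Finset.sum_congr rfl
    intro a _
    simp [mul_comm]
  have h1 : ∑ i ∈ s, ‖x i‖ ^ 2 = ∑ a, ∑ i ∈ s, x i a * x i a := by
    rw [Finset.sum_comm]
    apply Finset.sum_congr rfl
    intro i _
    rw [← real_inner_self_eq_norm_sq, hin]
  have h2 : (∑ a : Fin d, ∑ i ∈ s, x i a * x i a) ^ 2
      ≤ d * ∑ a : Fin d, (∑ i ∈ s, x i a * x i a) ^ 2 := by
    have := sq_sum_le_card_mul_sum_sq (s := (Finset.univ : Finset (Fin d)))
      (f := fun a => ∑ i ∈ s, x i a * x i a)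
    simpa using this
  have h3 : ∑ a : Fin d, (∑ i ∈ s, x i a * x i a) ^ 2
      ≤ ∑ a : Fin d, ∑ b : Fin d, (∑ i ∈ s, x i a * x i b) ^ 2 := by
    apply Finset.sum_le_sum
    intro a _
    exact Finset.single_le_sum (f := fun b => (∑ i ∈ s, x i a * x i b) ^ 2)
      (fun b _ => sq_nonneg _) (Finset.mem_univ a)
  have h4 : ∑ a : Fin d, ∑ b : Fin d, (∑ i ∈ s, x i a * x i b) ^ 2
      = ∑ i ∈ s, ∑ j ∈ s, (inner ℝ (x i) (x j)) ^ 2 := by
    have e1 : ∀ a b : Fin d, (∑ i ∈ s, x i a * x i b) ^ 2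
        = ∑ i ∈ s, ∑ j ∈ s, (x i a * x j a) * (x i b * x j b) := by
      intro a b
      rw [sq, Finset.sum_mul_sum]
      apply Finset.sum_congr rfl
      intro i _
      apply Finset.sum_congr rfl
      intro j _
      ring
    have e2 : ∀ i j, (inner ℝ (x i) (x j)) ^ 2
        = ∑ a : Fin d, ∑ b : Fin d, (x i a * x j a) * (x i b * x j b) := by
      intro i j
      rw [hin, sq, Finset.sum_mul_sum]
    simp_rw [e1, e2]
    calc ∑ a : Fin d, ∑ b : Fin d, ∑ i ∈ s, ∑ j ∈ s, (x i a * x j a) * (x i b * x j b)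
        = ∑ a : Fin d, ∑ i ∈ s, ∑ b : Fin d, ∑ j ∈ s, (x i a * x j a) * (x i b * x j b) := by
          apply Finset.sum_congr rfl
          intro a _
          rw [Finset.sum_comm]
      _ = ∑ i ∈ s, ∑ a : Fin d, ∑ b : Fin d, ∑ j ∈ s, (x i a * x j a) * (x i b * x j b) := by
          rw [Finset.sum_comm]
      _ = ∑ i ∈ s, ∑ a : Fin d, ∑ j ∈ s, ∑ b : Fin d, (x i a * x j a) * (x i b * x j b) := by
          apply Finset.sum_congr rfl
          intro i _
          apply Finset.sum_congr rfl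
          intro a _
          rw [Finset.sum_comm]
      _ = ∑ i ∈ s, ∑ j ∈ s, ∑ a : Fin d, ∑ b : Fin d, (x i a * x j a) * (x i b * x j b) := by
          apply Finset.sum_congr rfl
          intro i _
          rw [Finset.sum_comm]
  rw [h1, ← h4]
  calc _ ≤ _ := h2
    _ ≤ _ := by
      apply mul_le_mul_of_nonneg_left h3
      positivity

end Pool.Agent.Helper31_Elliptic
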