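import Mathlib
import Pool.Agent.Helper31_Elliptic.Frame

set_option autoImplicit false

namespace Pool.Agent.Helper31_Elliptic

/-- Row sums of a system of vectors which are pairwise orthogonal or opposite. -/
theorem row_sum_le {ι E : Type*} [NormedAddCommGroup E] [InnerProductSpace ℝ E]
    (T : Finset ι) (x : ι → E) (hx : ∀ i ∈ T, ‖x i‖ ^ 2 = 2 / 3)
    (hxx : ∀ i ∈ T, ∀ j ∈ T, i ≠ j → inner ℝ (x i) (x j) = 0 ∨ inner ℝ (x i) (x j) = - (2 / 3))
    (i : ι) (hi : i ∈ T) :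
    ∑ j ∈ T, |inner ℝ (x i) (x j)| ≤ 4 / 3 := by
  classical
  have hopp : ∀ j ∈ T, inner ℝ (x i) (x j) = -(2 / 3) → x j = - x i := by
    intro j hj hij
    have h0 : ‖x i + x j‖ ^ 2 = 0 := by
      rw [norm_add_sq_real, hx i hi, hx j hj, hij]; norm_num
    have h1 : x i + x j = 0 := by
      rw [← norm_eq_zero]
      exact pow_eq_zero_iff (two_ne_zero) |>.1 h0
    exact (neg_eq_of_add_eq_zero_right h1).symm
  rw [← Finset.add_sum_erase T _ hi]
  have hii : |inner ℝ (x i) (x i)| = 2 / 3 := by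
    rw [real_inner_self_eq_norm_sq, hx i hi]; norm_num
  rw [hii]
  have hcard : ((T.erase i).filter (fun j => inner ℝ (x i) (x j) = -(2 / 3))).card ≤ 1 := by
    rw [Finset.card_le_one]
    intro a ha b hb
    rw [Finset.mem_filter, Finset.mem_erase] at ha hb
    by_contra hab
    have ea := hopp a ha.1.2 ha.2
    have eb := hopp b hb.1.2 hb.2
    have h := hxx a ha.1.2 b hb.1.2 hab
    rw [ea, eb, inner_neg_neg, real_inner_self_eq_norm_sq, hx i hi] at h
    rcases h with h | h <;> norm_num at h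
  have hsum : ∑ j ∈ T.erase i, |inner ℝ (x i) (x j)|
      = ∑ j ∈ (T.erase i).filter (fun j => inner ℝ (x i) (x j) = -(2 / 3)), (2 / 3 : ℝ) := by
    rw [Finset.sum_filter]
    apply Finset.sum_congr rfl
    intro j hj
    rw [Finset.mem_erase] at hj
    rcases hxx i hi j hj.2 (Ne.symm hj.1) with h | h
    · rw [h]; norm_num
    · rw [h]; norm_num
  rw [hsum, Finset.sum_const, nsmul_eq_mul]
  have : (((T.erase i).filter (fun j => inner ℝ (x i) (x j) = -(2 / 3))).card : ℝ) ≤ 1 := by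
    exact_mod_cast hcard
  linarith

/-- Two pillars: a pillar seen from a vector of another pillar has at most eight elements. -/
theorem pillar_le_eight {ι E : Type*} [NormedAddCommGroup E] [InnerProductSpace ℝ E]
    (T : Finset ι) (x : ι → E) (hx : ∀ i ∈ T, ‖x i‖ ^ 2 = 2 / 3)
    (hxx : ∀ i ∈ T, ∀ j ∈ T, i ≠ j → inner ℝ (x i) (x j) = 0 ∨ inner ℝ (x i) (x j) = - (2 / 3))
    (y : E) (hy : ‖y‖ ^ 2 = 2 / 3) (hxy : ∀ i ∈ T, |inner ℝ (x i) y| = 1 / 3) :
    T.card ≤ 8 := by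
  classical
  obtain ⟨s, hs1, hs2⟩ : ∃ s : ι → ℝ, (∀ i ∈ T, |s i| = 1) ∧
      (∀ i ∈ T, s i * inner ℝ (x i) y = 1 / 3) := by
    refine ⟨fun i => 3 * inner ℝ (x i) y, ?_, ?_⟩
    · intro i hi
      simp only
      rw [abs_mul, hxy i hi]
      norm_num
    · intro i hi
      have h := hxy i hi
      have h2 : (inner ℝ (x i) y) ^ 2 = 1 / 9 := by
        rw [← sq_abs, h]; norm_num
      simp only
      linear_combination 3 * h2
  set z : E := ∑ i ∈ T, s i • x i with hz
  have hzy : inner ℝ z y = (T.card : ℝ) / 3 := by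
    rw [hz, sum_inner]
    have : ∀ i ∈ T, inner ℝ (s i • x i) y = 1 / 3 := by
      intro i hi
      rw [real_inner_smul_left]
      exact hs2 i hi
    rw [Finset.sum_congr rfl this, Finset.sum_const, nsmul_eq_mul]
    ring
  have hzz : ‖z‖ ^ 2 ≤ (T.card : ℝ) * (4 / 3) := by
    rw [← real_inner_self_eq_norm_sq, hz, sum_inner]
    have : ∀ i ∈ T, inner ℝ (s i • x i) (∑ j ∈ T, s j • x j) ≤ 4 / 3 := by
      intro i hi
      rw [inner_sum]
      calc ∑ j ∈ T, inner ℝ (s i • x i) (s j • x j) ≤ ∑ j ∈ T, |inner ℝ (x i) (x j)| := by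
            apply Finset.sum_le_sum
            intro j hj
            rw [real_inner_smul_left, real_inner_smul_right]
            calc s i * (s j * inner ℝ (x i) (x j)) ≤ |s i * (s j * inner ℝ (x i) (x j))| :=
                  le_abs_self _
              _ = |inner ℝ (x i) (x j)| := by
                  rw [abs_mul, abs_mul, hs1 i hi, hs1 j hj]; ring
        _ ≤ 4 / 3 := row_sum_le T x hx hxx i hi
    calc ∑ i ∈ T, inner ℝ (s i • x i) (∑ j ∈ T, s j • x j) ≤ ∑ i ∈ T, (4 / 3 : ℝ) :=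
          Finset.sum_le_sum this
      _ = (T.card : ℝ) * (4 / 3) := by rw [Finset.sum_const, nsmul_eq_mul]
  have hpos : 0 ≤ ‖y - (1 / 4 : ℝ) • z‖ ^ 2 := sq_nonneg _
  rw [norm_sub_sq_real, real_inner_smul_right, real_inner_comm, hzy, norm_smul, hy, mul_pow] at hpos
  have : (T.card : ℝ) ≤ 8 := by
    norm_num at hpos
    nlinarith
  exact_mod_cast this

/-- One pillar in dimension thirteen has at most 26 elements. -/
theorem pillar_le_26 {ι : Type*} 
    (T : Finset ι) (x : ι → EuclideanSpace ℝ (Fin 13)) (hx : ∀ i ∈ T, ‖x i‖ ^ 2 = 2 / 3)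
    (hxx : ∀ i ∈ T, ∀ j ∈ T, i ≠ j → inner ℝ (x i) (x j) = 0 ∨ inner ℝ (x i) (x j) = - (2 / 3)) :
    T.card ≤ 26 := by
  classical
  have hf := frame_bound T 13 x
  have h1 : ∑ i ∈ T, ‖x i‖ ^ 2 = (T.card : ℝ) * (2 / 3) := by
    rw [Finset.sum_congr rfl hx, Finset.sum_const, nsmul_eq_mul]
  have h2 : ∑ i ∈ T, ∑ j ∈ T, (inner ℝ (x i) (x j)) ^ 2 ≤ (T.card : ℝ) * (8 / 9) := by
    have : ∀ i ∈ T, ∑ j ∈ T, (inner ℝ (x i) (x j)) ^ 2 ≤ 8 / 9 := by
      intro i hi
      have hr := row_sum_le T x hx hxx i hi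
      have : ∀ j ∈ T, (inner ℝ (x i) (x j)) ^ 2 ≤ (2 / 3) * |inner ℝ (x i) (x j)| := by
        intro j hj
        by_cases hij : i = j
        · subst hij
          rw [real_inner_self_eq_norm_sq, hx i hi]; norm_num
        · rcases hxx i hi j hj hij with h | h
          · rw [h]; norm_num
          · rw [h]; norm_num
      calc ∑ j ∈ T, (inner ℝ (x i) (x j)) ^ 2 ≤ ∑ j ∈ T, (2 / 3) * |inner ℝ (x i) (x j)| :=
            Finset.sum_le_sum this
        _ = (2 / 3) * ∑ j ∈ T, |inner ℝ (x i) (x j)| := by rw [Finset.mul_sum]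
        _ ≤ 8 / 9 := by linarith
    calc ∑ i ∈ T, ∑ j ∈ T, (inner ℝ (x i) (x j)) ^ 2 ≤ ∑ i ∈ T, (8 / 9 : ℝ) :=
          Finset.sum_le_sum this
      _ = _ := by rw [Finset.sum_const, nsmul_eq_mul]
  rw [h1] at hf
  have h3 : ((T.card : ℝ) * (2 / 3)) ^ 2 ≤ 13 * ((T.card : ℝ) * (8 / 9)) := by
    calc _ ≤ _ := hf
      _ ≤ _ := by
        push_cast
        apply mul_le_mul_of_nonneg_left h2 (by norm_num)
  have h4 : (T.card : ℝ) ≤ 26 := by
    by_contra hcon
    push Not at hcon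
    nlinarith
  exact_mod_cast h4

end Pool.Agent.Helper31_Elliptic
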