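import Mathlib
import Pool.Agent.Helper31_Elliptic.Pillar

set_option autoImplicit false

namespace Pool.Agent.Helper31_Elliptic

variable {ι E : Type*} [NormedAddCommGroup E] [InnerProductSpace ℝ E]

theorem resid_norm (x h : E) (hx : ‖x‖ = 1) (hh : ‖h‖ ^ 2 = 1 / 3) (hxh : inner ℝ x h = 1 / 3) :
    ‖x - h‖ ^ 2 = 2 / 3 := by
  rw [norm_sub_sq_real, hx, hh, hxh]; norm_num

theorem resid_inner (x y h : E) (hh : ‖h‖ ^ 2 = 1 / 3) (hxh : inner ℝ x h = 1 / 3)
    (hyh : inner ℝ y h = 1 / 3) (hxy : |inner ℝ x y| = 1 / 3) :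
    inner ℝ (x - h) (y - h) = 0 ∨ inner ℝ (x - h) (y - h) = -(2 / 3) := by
  have e : inner ℝ (x - h) (y - h) = inner ℝ x y - 1 / 3 := by
    rw [inner_sub_left, inner_sub_right, inner_sub_right, hxh, real_inner_self_eq_norm_sq, hh,
      real_inner_comm y h, hyh]
    ring
  rw [e]
  rcases (abs_eq (by norm_num : (0 : ℝ) ≤ 1 / 3)).1 hxy with h1 | h1
  · left; rw [h1]; norm_num
  · right; rw [h1]; norm_num

theorem resid_cross (x y h k : E) (hxk : inner ℝ x k = 0) (hyh : inner ℝ y h = 0)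
    (hhk : inner ℝ h k = 0) : inner ℝ (x - h) (y - k) = inner ℝ x y := by
  rw [inner_sub_left, inner_sub_right, inner_sub_right, hxk, hhk, real_inner_comm y h, hyh]
  ring

/-- A pillar with another nonempty pillar has at most eight elements. -/
theorem pair_le_eight (T : Finset ι) (x : ι → E) (h k y : E)
    (hx : ∀ i ∈ T, ‖x i‖ = 1) (hh : ‖h‖ ^ 2 = 1 / 3) (hk : ‖k‖ ^ 2 = 1 / 3)
    (hhk : inner ℝ h k = 0)
    (hxh : ∀ i ∈ T, inner ℝ (x i) h = 1 / 3) (hxk : ∀ i ∈ T, inner ℝ (x i) k = 0)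
    (hxx : ∀ i ∈ T, ∀ j ∈ T, i ≠ j → |inner ℝ (x i) (x j)| = 1 / 3)
    (hy : ‖y‖ = 1) (hyk : inner ℝ y k = 1 / 3) (hyh : inner ℝ y h = 0)
    (hxy : ∀ i ∈ T, |inner ℝ (x i) y| = 1 / 3) : T.card ≤ 8 := by
  apply pillar_le_eight T (fun i => x i - h)
    (fun i hi => resid_norm _ _ (hx i hi) hh (hxh i hi))
    (fun i hi j hj hij => resid_inner _ _ _ hh (hxh i hi) (hxh j hj) (hxx i hi j hj hij))
    (y - k) (resid_norm _ _ hy hk hyk)
  intro i hi
  rw [resid_cross _ _ _ _ (hxk i hi) hyh hhk]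
  exact hxy i hi

theorem single_le_26 (T : Finset ι) (x : ι → EuclideanSpace ℝ (Fin 13))
    (h : EuclideanSpace ℝ (Fin 13))
    (hx : ∀ i ∈ T, ‖x i‖ = 1) (hh : ‖h‖ ^ 2 = 1 / 3)
    (hxh : ∀ i ∈ T, inner ℝ (x i) h = 1 / 3)
    (hxx : ∀ i ∈ T, ∀ j ∈ T, i ≠ j → |inner ℝ (x i) (x j)| = 1 / 3) : T.card ≤ 26 := by
  apply pillar_le_26 T (fun i => x i - h)
    (fun i hi => resid_norm _ _ (hx i hi) hh (hxh i hi))
    (fun i hi j hj hij => resid_inner _ _ _ hh (hxh i hi) (hxh j hj) (hxx i hi j hj hij))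

/-- Vectors at angle `arccos (1/3)` with three vectors of mutual inner product `-1/3`. -/
theorem third_family_le (U : Finset ι) (x : ι → EuclideanSpace ℝ (Fin 13))
    (p q r : EuclideanSpace ℝ (Fin 13)) (hp : ‖p‖ = 1) (hq : ‖q‖ = 1) (hr : ‖r‖ = 1)
    (hpq : inner ℝ p q = -(1 / 3)) (hpr : inner ℝ p r = -(1 / 3)) (hqr : inner ℝ q r = -(1 / 3))
    (hx : ∀ i ∈ U, ‖x i‖ = 1) (hxp : ∀ i ∈ U, inner ℝ (x i) p = 1 / 3)
    (hxq : ∀ i ∈ U, |inner ℝ (x i) q| = 1 / 3) (hxr : ∀ i ∈ U, |inner ℝ (x i) r| = 1 / 3)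
    (hxx : ∀ i ∈ U, ∀ j ∈ U, i ≠ j → |inner ℝ (x i) (x j)| = 1 / 3) : U.card ≤ 27 := by
  classical
  have hpp : inner ℝ p p = (1 : ℝ) := by rw [real_inner_self_eq_norm_sq, hp]; norm_num
  have hqq : inner ℝ q q = (1 : ℝ) := by rw [real_inner_self_eq_norm_sq, hq]; norm_num
  have hrr : inner ℝ r r = (1 : ℝ) := by rw [real_inner_self_eq_norm_sq, hr]; norm_num
  have hqp : inner ℝ q p = -(1 / 3 : ℝ) := by rw [real_inner_comm]; exact hpq
  have hrp : inner ℝ r p = -(1 / 3 : ℝ) := by rw [real_inner_comm]; exact hpr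
  have hrq : inner ℝ r q = -(1 / 3 : ℝ) := by rw [real_inner_comm]; exact hqr
  set hA : EuclideanSpace ℝ (Fin 13) := (1 / 2 : ℝ) • (p + q) with dA
  set hB : EuclideanSpace ℝ (Fin 13) := (1 / 2 : ℝ) • (p + r) with dB
  set hC : EuclideanSpace ℝ (Fin 13) := (-(1 / 2) : ℝ) • (q + r) with dC
  have nA : ‖hA‖ ^ 2 = 1 / 3 := by
    rw [← real_inner_self_eq_norm_sq, dA]
    simp only [inner_smul_left, inner_smul_right, inner_add_left, inner_add_right, hpp, hqq, hpq, hqp]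
    norm_num
  have nB : ‖hB‖ ^ 2 = 1 / 3 := by
    rw [← real_inner_self_eq_norm_sq, dB]
    simp only [inner_smul_left, inner_smul_right, inner_add_left, inner_add_right, hpp, hrr, hpr, hrp]
    norm_num
  have nC : ‖hC‖ ^ 2 = 1 / 3 := by
    rw [← real_inner_self_eq_norm_sq, dC]
    simp only [inner_smul_left, inner_smul_right, inner_add_left, inner_add_right, hqq, hrr, hqr, hrq]
    norm_num
  have oAB : inner ℝ hA hB = (0 : ℝ) := by
    rw [dA, dB]
    simp only [inner_smul_left, inner_smul_right, inner_add_left, inner_add_right, hpp, hqq, hrr,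
      hpq, hqp, hpr, hrp, hqr, hrq]
    norm_num
  have oAC : inner ℝ hA hC = (0 : ℝ) := by
    rw [dA, dC]
    simp only [inner_smul_left, inner_smul_right, inner_add_left, inner_add_right, hpp, hqq, hrr,
      hpq, hqp, hpr, hrp, hqr, hrq]
    norm_num
  have oBC : inner ℝ hB hC = (0 : ℝ) := by
    rw [dB, dC]
    simp only [inner_smul_left, inner_smul_right, inner_add_left, inner_add_right, hpp, hqq, hrr,
      hpq, hqp, hpr, hrp, hqr, hrq]
    norm_num
  have iA : ∀ i ∈ U, inner ℝ (x i) hA = (1 / 2 : ℝ) * (1 / 3 + inner ℝ (x i) q) := by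
    intro i hi
    rw [dA, inner_smul_right, inner_add_right, hxp i hi]
  have iB : ∀ i ∈ U, inner ℝ (x i) hB = (1 / 2 : ℝ) * (1 / 3 + inner ℝ (x i) r) := by
    intro i hi
    rw [dB, inner_smul_right, inner_add_right, hxp i hi]
  have iC : ∀ i ∈ U, inner ℝ (x i) hC = -(1 / 2 : ℝ) * (inner ℝ (x i) q + inner ℝ (x i) r) := by
    intro i hi
    rw [dC, inner_smul_right, inner_add_right]
  -- the four types
  set T0 := U.filter (fun i => inner ℝ (x i) q = 1 / 3 ∧ inner ℝ (x i) r = 1 / 3) with d0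
  set TA := U.filter (fun i => inner ℝ (x i) q = 1 / 3 ∧ inner ℝ (x i) r = -(1 / 3)) with dTA
  set TB := U.filter (fun i => inner ℝ (x i) q = -(1 / 3) ∧ inner ℝ (x i) r = 1 / 3) with dTB
  set TC := U.filter (fun i => inner ℝ (x i) q = -(1 / 3) ∧ inner ℝ (x i) r = -(1 / 3)) with dTC
  have hcover : U ⊆ T0 ∪ (TA ∪ (TB ∪ TC)) := by
    intro i hi
    have h1 := (abs_eq (by norm_num : (0 : ℝ) ≤ 1 / 3)).1 (hxq i hi)
    have h2 := (abs_eq (by norm_num : (0 : ℝ) ≤ 1 / 3)).1 (hxr i hi)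
    simp only [Finset.mem_union, d0, dTA, dTB, dTC, Finset.mem_filter]
    rcases h1 with h1 | h1 <;> rcases h2 with h2 | h2
    · exact Or.inl ⟨hi, h1, h2⟩
    · exact Or.inr (Or.inl ⟨hi, h1, h2⟩)
    · exact Or.inr (Or.inr (Or.inl ⟨hi, h1, h2⟩))
    · exact Or.inr (Or.inr (Or.inr ⟨hi, h1, h2⟩))
  have hcard : U.card ≤ T0.card + (TA.card + (TB.card + TC.card)) := by
    calc U.card ≤ (T0 ∪ (TA ∪ (TB ∪ TC))).card := Finset.card_le_card hcover
      _ ≤ T0.card + (TA ∪ (TB ∪ TC)).card := Finset.card_union_le _ _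
      _ ≤ T0.card + (TA.card + (TB ∪ TC).card) := by
        have := Finset.card_union_le TA (TB ∪ TC)
        omega
      _ ≤ _ := by
        have := Finset.card_union_le TB TC
        omega
  -- type zero has at most one element
  have c0 : T0.card ≤ 1 := by
    rw [Finset.card_le_one]
    have key : ∀ a ∈ T0, x a = p + q + r := by
      intro a ha
      rw [d0, Finset.mem_filter] at ha
      have h0 : ‖x a - (p + q + r)‖ ^ 2 = 0 := by
        rw [← real_inner_self_eq_norm_sq]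
        have hxa : inner ℝ (x a) (x a) = (1 : ℝ) := by
          rw [real_inner_self_eq_norm_sq, hx a ha.1]; norm_num
        have e1 : inner ℝ p (x a) = (1 / 3 : ℝ) := by rw [real_inner_comm]; exact hxp a ha.1
        have e2 : inner ℝ q (x a) = (1 / 3 : ℝ) := by rw [real_inner_comm]; exact ha.2.1
        have e3 : inner ℝ r (x a) = (1 / 3 : ℝ) := by rw [real_inner_comm]; exact ha.2.2
        simp only [inner_sub_left, inner_sub_right, inner_add_left, inner_add_right, hpp, hqq, hrr,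
          hpq, hqp, hpr, hrp, hqr, hrq, hxa, e1, e2, e3, hxp a ha.1, ha.2.1, ha.2.2]
        norm_num
      have h1 : x a - (p + q + r) = 0 := by
        rw [← norm_eq_zero]
        exact pow_eq_zero_iff (two_ne_zero) |>.1 h0
      exact sub_eq_zero.1 h1
    intro a ha b hb
    by_contra hab
    have ea := key a ha
    have eb := key b hb
    rw [d0, Finset.mem_filter] at ha hb
    have h := hxx a ha.1 b hb.1 hab
    rw [ea, ← eb, real_inner_self_eq_norm_sq, hx b hb.1] at h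
    norm_num at h
  have mU : ∀ P : ι → Prop, ∀ [DecidablePred P], ∀ i ∈ U.filter P, i ∈ U := by
    intro P _ i hi
    exact (Finset.mem_filter.1 hi).1
  -- membership facts
  have mA : ∀ i ∈ TA, i ∈ U ∧ inner ℝ (x i) hA = (1 / 3 : ℝ) ∧ inner ℝ (x i) hB = (0 : ℝ)
      ∧ inner ℝ (x i) hC = (0 : ℝ) := by
    intro i hi
    rw [dTA, Finset.mem_filter] at hi
    refine ⟨hi.1, ?_, ?_, ?_⟩
    · rw [iA i hi.1, hi.2.1]; norm_num
    · rw [iB i hi.1, hi.2.2]; norm_num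
    · rw [iC i hi.1, hi.2.1, hi.2.2]; norm_num
  have mB : ∀ i ∈ TB, i ∈ U ∧ inner ℝ (x i) hA = (0 : ℝ) ∧ inner ℝ (x i) hB = (1 / 3 : ℝ)
      ∧ inner ℝ (x i) hC = (0 : ℝ) := by
    intro i hi
    rw [dTB, Finset.mem_filter] at hi
    refine ⟨hi.1, ?_, ?_, ?_⟩
    · rw [iA i hi.1, hi.2.1]; norm_num
    · rw [iB i hi.1, hi.2.2]; norm_num
    · rw [iC i hi.1, hi.2.1, hi.2.2]; norm_num
  have mC : ∀ i ∈ TC, i ∈ U ∧ inner ℝ (x i) hA = (0 : ℝ) ∧ inner ℝ (x i) hB = (0 : ℝ)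
      ∧ inner ℝ (x i) hC = (1 / 3 : ℝ) := by
    intro i hi
    rw [dTC, Finset.mem_filter] at hi
    refine ⟨hi.1, ?_, ?_, ?_⟩
    · rw [iA i hi.1, hi.2.1]; norm_num
    · rw [iB i hi.1, hi.2.2]; norm_num
    · rw [iC i hi.1, hi.2.1, hi.2.2]; norm_num
  have a26 : TA.card ≤ 26 := single_le_26 TA x hA (fun i hi => hx i (mA i hi).1) nA
    (fun i hi => (mA i hi).2.1) (fun i hi j hj hij => hxx i (mA i hi).1 j (mA j hj).1 hij)
  have b26 : TB.card ≤ 26 := single_le_26 TB x hB (fun i hi => hx i (mB i hi).1) nB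
    (fun i hi => (mB i hi).2.2.1) (fun i hi j hj hij => hxx i (mB i hi).1 j (mB j hj).1 hij)
  have c26 : TC.card ≤ 26 := single_le_26 TC x hC (fun i hi => hx i (mC i hi).1) nC
    (fun i hi => (mC i hi).2.2.2) (fun i hi j hj hij => hxx i (mC i hi).1 j (mC j hj).1 hij)
  have oBA : inner ℝ hB hA = (0 : ℝ) := by rw [real_inner_comm]; exact oAB
  have oCA : inner ℝ hC hA = (0 : ℝ) := by rw [real_inner_comm]; exact oAC
  have oCB : inner ℝ hC hB = (0 : ℝ) := by rw [real_inner_comm]; exact oBC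
  have t13 : (1 / 3 : ℝ) ≠ 0 := by norm_num
  have neAB : ∀ i ∈ TA, ∀ j ∈ TB, i ≠ j := by
    rintro i hi j hj rfl
    exact t13 ((mA i hi).2.1.symm.trans (mB i hj).2.1)
  have neAC : ∀ i ∈ TA, ∀ j ∈ TC, i ≠ j := by
    rintro i hi j hj rfl
    exact t13 ((mA i hi).2.1.symm.trans (mC i hj).2.1)
  have neBC : ∀ i ∈ TB, ∀ j ∈ TC, i ≠ j := by
    rintro i hi j hj rfl
    exact t13 ((mB i hi).2.2.1.symm.trans (mC i hj).2.2.1)
  have AB : 0 < TB.card → TA.card ≤ 8 := by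
    intro h
    obtain ⟨j, hj⟩ := Finset.card_pos.1 h
    exact pair_le_eight TA x hA hB (x j) (fun i hi => hx i (mA i hi).1) nA nB oAB
      (fun i hi => (mA i hi).2.1) (fun i hi => (mA i hi).2.2.1)
      (fun i hi j hj hij => hxx i (mA i hi).1 j (mA j hj).1 hij) (hx j (mB j hj).1)
      (mB j hj).2.2.1 (mB j hj).2.1
      (fun i hi => hxx i (mA i hi).1 j (mB j hj).1 (neAB i hi j hj))
  have AC : 0 < TC.card → TA.card ≤ 8 := by
    intro h
    obtain ⟨j, hj⟩ := Finset.card_pos.1 h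
    exact pair_le_eight TA x hA hC (x j) (fun i hi => hx i (mA i hi).1) nA nC oAC
      (fun i hi => (mA i hi).2.1) (fun i hi => (mA i hi).2.2.2)
      (fun i hi j hj hij => hxx i (mA i hi).1 j (mA j hj).1 hij) (hx j (mC j hj).1)
      (mC j hj).2.2.2 (mC j hj).2.1
      (fun i hi => hxx i (mA i hi).1 j (mC j hj).1 (neAC i hi j hj))
  have BA : 0 < TA.card → TB.card ≤ 8 := by
    intro h
    obtain ⟨j, hj⟩ := Finset.card_pos.1 h
    exact pair_le_eight TB x hB hA (x j) (fun i hi => hx i (mB i hi).1) nB nA oBA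
      (fun i hi => (mB i hi).2.2.1) (fun i hi => (mB i hi).2.1)
      (fun i hi j hj hij => hxx i (mB i hi).1 j (mB j hj).1 hij) (hx j (mA j hj).1)
      (mA j hj).2.1 (mA j hj).2.2.1
      (fun i hi => hxx i (mB i hi).1 j (mA j hj).1 (neAB j hj i hi).symm)
  have BC : 0 < TC.card → TB.card ≤ 8 := by
    intro h
    obtain ⟨j, hj⟩ := Finset.card_pos.1 h
    exact pair_le_eight TB x hB hC (x j) (fun i hi => hx i (mB i hi).1) nB nC oBC
      (fun i hi => (mB i hi).2.2.1) (fun i hi => (mB i hi).2.2.2)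
      (fun i hi j hj hij => hxx i (mB i hi).1 j (mB j hj).1 hij) (hx j (mC j hj).1)
      (mC j hj).2.2.2 (mC j hj).2.2.1
      (fun i hi => hxx i (mB i hi).1 j (mC j hj).1 (neBC i hi j hj))
  have CA : 0 < TA.card → TC.card ≤ 8 := by
    intro h
    obtain ⟨j, hj⟩ := Finset.card_pos.1 h
    exact pair_le_eight TC x hC hA (x j) (fun i hi => hx i (mC i hi).1) nC nA oCA
      (fun i hi => (mC i hi).2.2.2) (fun i hi => (mC i hi).2.1)
      (fun i hi j hj hij => hxx i (mC i hi).1 j (mC j hj).1 hij) (hx j (mA j hj).1)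
      (mA j hj).2.1 (mA j hj).2.2.2
      (fun i hi => hxx i (mC i hi).1 j (mA j hj).1 (neAC j hj i hi).symm)
  have CB : 0 < TB.card → TC.card ≤ 8 := by
    intro h
    obtain ⟨j, hj⟩ := Finset.card_pos.1 h
    exact pair_le_eight TC x hC hB (x j) (fun i hi => hx i (mC i hi).1) nC nB oCB
      (fun i hi => (mC i hi).2.2.2) (fun i hi => (mC i hi).2.2.1)
      (fun i hi j hj hij => hxx i (mC i hi).1 j (mC j hj).1 hij) (hx j (mB j hj).1)
      (mB j hj).2.2.1 (mB j hj).2.2.2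
      (fun i hi => hxx i (mC i hi).1 j (mB j hj).1 (neBC j hj i hi).symm)
  omega

end Pool.Agent.Helper31_Elliptic
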