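import Mathlib
import Pool.Agent.Helper31_Elliptic.Third
import Pool.Agent.Helper31_Elliptic.Neumann

set_option autoImplicit false

namespace Pool.Agent.Helper31_Elliptic

/-- There are no 33 equiangular lines with angle `arccos (1/3)` in `ℝ^13`. -/
theorem no_third (v : Fin 33 → EuclideanSpace ℝ (Fin 13)) (hv : ∀ i, ‖v i‖ = 1)
    (hvv : ∀ i j, i ≠ j → |inner ℝ (v i) (v j)| = 1 / 3) : False := by
  classical
  have hsq : ∀ i j, i ≠ j → (inner ℝ (v i) (v j)) ^ 2 = (1 / 9 : ℝ) := by
    intro i j hij
    rw [← sq_abs, hvv i j hij]; norm_num
  by_cases h : ∃ i j k : Fin 33, i ≠ j ∧ j ≠ k ∧ i ≠ k ∧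
      inner ℝ (v i) (v j) * inner ℝ (v i) (v k) * inner ℝ (v j) (v k) < (0 : ℝ)
  · obtain ⟨i, j, k, hij, hjk, hik, hneg⟩ := h
    have hprod : inner ℝ (v i) (v j) * inner ℝ (v i) (v k) * inner ℝ (v j) (v k)
        = (-(1 / 27) : ℝ) := by
      have habs : |inner ℝ (v i) (v j) * inner ℝ (v i) (v k) * inner ℝ (v j) (v k)|
          = (1 / 27 : ℝ) := by
        rw [abs_mul, abs_mul, hvv i j hij, hvv i k hik, hvv j k hjk]; norm_num
      rw [abs_of_neg hneg] at habs
      linarith
    set p := v i with hp
    set q := (-(3 * inner ℝ (v i) (v j)) : ℝ) • v j with hq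
    set r := (-(3 * inner ℝ (v i) (v k)) : ℝ) • v k with hr
    have hc := third_family_le (Finset.univ \ {i, j, k})
      (fun a => (3 * inner ℝ (v a) (v i) : ℝ) • v a) p q r (hv i)
      (by rw [hq, norm_smul, hv j, Real.norm_eq_abs, abs_neg, abs_mul, hvv i j hij]; norm_num)
      (by rw [hr, norm_smul, hv k, Real.norm_eq_abs, abs_neg, abs_mul, hvv i k hik]; norm_num)
      (by
        rw [hq, inner_smul_right]
        linear_combination (-3) * hsq i j hij)
      (by
        rw [hr, inner_smul_right]
        linear_combination (-3) * hsq i k hik)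
      (by
        rw [hq, hr, inner_smul_left, inner_smul_right]
        simp only [conj_trivial]
        linear_combination 9 * hprod)
      (by
        intro a ha
        simp only [Finset.mem_sdiff, Finset.mem_insert, Finset.mem_singleton, not_or] at ha
        simp only [norm_smul]
        rw [hv a, Real.norm_eq_abs, abs_mul, hvv a i ha.2.1]; norm_num)
      (by
        intro a ha
        simp only [Finset.mem_sdiff, Finset.mem_insert, Finset.mem_singleton, not_or] at ha
        simp only [inner_smul_left, conj_trivial]
        linear_combination 3 * hsq a i ha.2.1)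
      (by
        intro a ha
        simp only [Finset.mem_sdiff, Finset.mem_insert, Finset.mem_singleton, not_or] at ha
        rw [hq, inner_smul_left, inner_smul_right]
        simp only [conj_trivial]
        rw [abs_mul, abs_mul, abs_mul, abs_neg, abs_mul, hvv a i ha.2.1, hvv i j hij,
          hvv a j ha.2.2.1]
        norm_num)
      (by
        intro a ha
        simp only [Finset.mem_sdiff, Finset.mem_insert, Finset.mem_singleton, not_or] at ha
        rw [hr, inner_smul_left, inner_smul_right]
        simp only [conj_trivial]
        rw [abs_mul, abs_mul, abs_mul, abs_neg, abs_mul, hvv a i ha.2.1, hvv i k hik,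
          hvv a k ha.2.2.2]
        norm_num)
      (by
        intro a ha b hb hab
        simp only [Finset.mem_sdiff, Finset.mem_insert, Finset.mem_singleton, not_or] at ha hb
        rw [inner_smul_left, inner_smul_right]
        simp only [conj_trivial]
        rw [abs_mul, abs_mul, abs_mul, abs_mul, hvv a i ha.2.1, hvv b i hb.2.1, hvv a b hab]
        norm_num)
    have hcard : ({i, j, k} : Finset (Fin 33)).card ≤ 3 := Finset.card_le_three
    have h2 : (Finset.univ \ {i, j, k} : Finset (Fin 33)).card
        = (Finset.univ : Finset (Fin 33)).card - ({i, j, k} : Finset (Fin 33)).card :=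
      Finset.card_sdiff_of_subset (Finset.subset_univ _)
    rw [Finset.card_univ, Fintype.card_fin] at h2
    omega
  · push Not at h
    -- all triples are positive
    set w : Fin 33 → EuclideanSpace ℝ (Fin 13) :=
      fun i => if i = 0 then v 0 else (3 * inner ℝ (v 0) (v i) : ℝ) • v i with hw
    have hww : ∀ i j, inner ℝ (w i) (w j) = if i = j then (1 : ℝ) else 1 / 3 := by
      intro i j
      have hvi : ∀ a, inner ℝ (v a) (v a) = (1 : ℝ) := by
        intro a
        rw [real_inner_self_eq_norm_sq, hv a]; norm_num
      by_cases hij : i = j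
      · subst hij
        rw [if_pos rfl]
        by_cases hi : i = 0
        · simp only [hw, hi, if_true]; exact hvi 0
        · simp only [hw, if_neg hi]
          rw [inner_smul_left, inner_smul_right, hvi i]
          simp only [conj_trivial]
          linear_combination 9 * hsq 0 i (Ne.symm hi)
      · rw [if_neg hij]
        by_cases hi : i = 0
        · have hj : j ≠ 0 := by rintro rfl; exact hij hi
          simp only [hw, hi, if_true, if_neg hj]
          rw [inner_smul_right]
          linear_combination 3 * hsq 0 j (Ne.symm hj)
        · by_cases hj : j = 0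
          · simp only [hw, hj, if_true, if_neg hi]
            rw [inner_smul_left, real_inner_comm (v 0) (v i)]
            simp only [conj_trivial]
            linear_combination 3 * hsq 0 i (Ne.symm hi)
          · simp only [hw, if_neg hi, if_neg hj]
            rw [inner_smul_left, inner_smul_right]
            simp only [conj_trivial]
            have hnn := h 0 i j (Ne.symm hi) hij (Ne.symm hj)
            have habs : |inner ℝ (v 0) (v i) * inner ℝ (v 0) (v j) * inner ℝ (v i) (v j)|
                = (1 / 27 : ℝ) := by
              rw [abs_mul, abs_mul, hvv 0 i (Ne.symm hi), hvv 0 j (Ne.symm hj), hvv i j hij]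
              norm_num
            rw [abs_of_nonneg hnn] at habs
            linear_combination 9 * habs
    have hli : LinearIndependent ℝ w := by
      rw [Fintype.linearIndependent_iff]
      intro g hg
      have hj : ∀ j, (1 / 3 : ℝ) * ∑ i, g i + (2 / 3) * g j = 0 := by
        intro j
        have h0 : inner ℝ (w j) (∑ i, g i • w i) = (0 : ℝ) := by rw [hg, inner_zero_right]
        rw [inner_sum] at h0
        have : ∀ i ∈ (Finset.univ : Finset (Fin 33)), inner ℝ (w j) (g i • w i)
            = (1 / 3 : ℝ) * g i + (if j = i then (2 / 3) * g i else 0) := by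
          intro i _
          rw [inner_smul_right, hww j i]
          split_ifs <;> ring
        rw [Finset.sum_congr rfl this, Finset.sum_add_distrib, ← Finset.mul_sum] at h0
        simpa using h0
      have hA : ∑ i, g i = 0 := by
        have hs : ∑ j : Fin 33, ((1 / 3 : ℝ) * ∑ i, g i + (2 / 3) * g j) = 0 :=
          Finset.sum_eq_zero (fun j _ => hj j)
        rw [Finset.sum_add_distrib, ← Finset.mul_sum, ← Finset.mul_sum, Finset.sum_const,
          Finset.card_univ, Fintype.card_fin, nsmul_eq_mul] at hs
        push_cast at hs
        linarith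
      intro i
      have := hj i
      rw [hA] at this
      linarith
    have := hli.fintype_card_le_finrank
    rw [finrank_euclideanSpace_fin, Fintype.card_fin] at this
    omega

/-- The matrix `J - I` of order 14 over `ZMod 2`. -/
def JI : Matrix (Fin 14) (Fin 14) (ZMod 2) := fun i j => if i = j then 0 else 1

/-- The matrix `J - I` of order 14 over `ZMod 2` squares to the identity. -/
theorem sq_one : JI * JI = 1 := by
  decide +kernel

/-- There are no 33 equiangular lines in `ℝ^13`. -/
theorem no_33 (v : Fin 33 → EuclideanSpace ℝ (Fin 13)) (c : ℝ) (hc1 : c < 1)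
    (hv : ∀ i, ‖v i‖ = 1) (hvv : ∀ i j, i ≠ j → |inner ℝ (v i) (v j)| = c) : False := by
  classical
  have hvi : ∀ a, inner ℝ (v a) (v a) = (1 : ℝ) := by
    intro a
    rw [real_inner_self_eq_norm_sq, hv a]; norm_num
  have hc0 : 0 ≤ c := by
    rw [← hvv 0 1 (by decide)]; exact abs_nonneg _
  -- frame bound
  have hc2 : 20 / 416 ≤ c ^ 2 := by
    have hf := frame_bound Finset.univ 13 v
    have h1 : ∑ i, ‖v i‖ ^ 2 = (33 : ℝ) := by
      simp [hv]
    have h2 : ∑ i, ∑ j, (inner ℝ (v i) (v j)) ^ 2 = (33 : ℝ) * (1 + 32 * c ^ 2) := by
      have : ∀ i ∈ (Finset.univ : Finset (Fin 33)), ∑ j, (inner ℝ (v i) (v j)) ^ 2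
          = (1 + 32 * c ^ 2 : ℝ) := by
        intro i _
        rw [← Finset.add_sum_erase Finset.univ _ (Finset.mem_univ i), hvi i]
        have : ∀ j ∈ Finset.univ.erase i, (inner ℝ (v i) (v j)) ^ 2 = c ^ 2 := by
          intro j hj
          rw [Finset.mem_erase] at hj
          rw [← sq_abs, hvv i j (Ne.symm hj.1)]
        rw [Finset.sum_congr rfl this, Finset.sum_const, Finset.card_erase_of_mem
          (Finset.mem_univ i), Finset.card_univ, Fintype.card_fin, nsmul_eq_mul]
        norm_num
      rw [Finset.sum_congr rfl this, Finset.sum_const, Finset.card_univ, Fintype.card_fin,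
        nsmul_eq_mul]
      norm_num
    rw [h1, h2] at hf
    push_cast at hf
    linarith
  have hcpos : 0 < c := by
    rcases hc0.lt_or_eq with h | h
    · exact h
    · rw [← h] at hc2; norm_num at hc2
  -- the Seidel matrix
  set S : Matrix (Fin 33) (Fin 33) ℤ :=
    fun i j => if i = j then 0 else if (0 : ℝ) < inner ℝ (v i) (v j) then 1 else -1 with hS
  have hSin : ∀ i j, i ≠ j → inner ℝ (v i) (v j) = c * ((S i j : ℤ) : ℝ) := by
    intro i j hij
    have h := hvv i j hij
    simp only [hS, if_neg hij]
    split_ifs with hpos
    · rw [abs_of_pos hpos] at h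
      rw [h]; simp
    · push Not at hpos
      rw [abs_of_nonpos hpos] at h
      push_cast
      linarith
  have hSii : ∀ i, S i i = 0 := by intro i; simp [hS]
  have hgram : ∀ i j, inner ℝ (v i) (v j) = (if i = j then (1 : ℝ) else 0) + c * ((S i j : ℤ) : ℝ) := by
    intro i j
    by_cases hij : i = j
    · subst hij; rw [hvi, hSii]; simp
    · rw [hSin i j hij, if_neg hij, zero_add]
  have hker : ∀ g : Fin 33 → ℝ, ∑ i, g i • v i = 0 →
      ∀ j, g j + c * ∑ i, ((S j i : ℤ) : ℝ) * g i = 0 := by
    intro g hg j
    have h0 : inner ℝ (v j) (∑ i, g i • v i) = (0 : ℝ) := by rw [hg, inner_zero_right]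
    rw [inner_sum] at h0
    have : ∀ i ∈ (Finset.univ : Finset (Fin 33)), inner ℝ (v j) (g i • v i)
        = (if j = i then g i else 0) + c * (((S j i : ℤ) : ℝ) * g i) := by
      intro i _
      rw [inner_smul_right, hgram j i]
      split_ifs <;> ring
    rw [Finset.sum_congr rfl this, Finset.sum_add_distrib, ← Finset.mul_sum] at h0
    simpa using h0
  -- integrality of the eigenvalue
  obtain ⟨m, hm⟩ : ∃ m : ℤ, -c⁻¹ = (m : ℝ) := by
    apply int_of_large_mult S.charpoly (Matrix.charpoly_monic S)
    rw [Matrix.charpoly_natDegree_eq_dim, Fintype.card_fin, ← Matrix.charpoly_map]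
    have hle := LinearMap.finrank_eigenspace_le (Matrix.toLin' (S.map (Int.castRingHom ℝ))) (-c⁻¹)
    rw [Matrix.charpoly_toLin'] at hle
    have hker2 : LinearMap.ker (Fintype.linearCombination ℝ v) ≤
        Module.End.eigenspace (Matrix.toLin' (S.map (Int.castRingHom ℝ))) (-c⁻¹) := by
      intro g hg
      rw [LinearMap.mem_ker, Fintype.linearCombination_apply] at hg
      rw [Module.End.mem_eigenspace_iff]
      have hk := hker g hg
      ext j
      rw [Matrix.toLin'_apply, Matrix.mulVec, dotProduct, Pi.smul_apply, smul_eq_mul]
      have e : ∑ i, (S.map (Int.castRingHom ℝ)) j i * g i = ∑ i, ((S j i : ℤ) : ℝ) * g i := by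
        apply Finset.sum_congr rfl
        intro i _
        simp
      rw [e]
      have := hk j
      field_simp
      linarith
    have hfr := Submodule.finrank_mono hker2
    have hrn := LinearMap.finrank_range_add_finrank_ker (Fintype.linearCombination ℝ v)
    have hrange : Module.finrank ℝ (LinearMap.range (Fintype.linearCombination ℝ v)) ≤ 13 := by
      have := Submodule.finrank_le (LinearMap.range (Fintype.linearCombination ℝ v))
      rwa [finrank_euclideanSpace_fin] at this
    rw [Module.finrank_fintype_fun_eq_card, Fintype.card_fin] at hrn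
    omega
  -- k = 1/c
  set k : ℤ := -m with hk
  have hck : c * (k : ℝ) = 1 := by
    have : (k : ℝ) = c⁻¹ := by rw [hk]; push_cast; rw [← hm]; ring
    rw [this]; field_simp
  have hkpos : (1 : ℝ) < k := by
    by_contra hcon
    push Not at hcon
    nlinarith
  have hk5 : (k : ℝ) < 5 := by
    by_contra hcon
    push Not at hcon
    nlinarith
  have hkpos' : 1 < k := by exact_mod_cast hkpos
  have hk5' : k < 5 := by exact_mod_cast hk5
  -- parity
  have hodd : ¬ (2 : ℤ) ∣ k := by
    intro hdvd
    set e : Fin 14 → Fin 33 := Fin.castLE (by norm_num) with he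
    have heinj : Function.Injective e := Fin.castLE_injective _
    set B : Matrix (Fin 14) (Fin 14) ℤ := fun i j => if i = j then k else S (e i) (e j) with hB
    have hdet : B.det = 0 := by
      have hnli : ¬ LinearIndependent ℝ (fun i => v (e i)) := by
        intro hli
        have := hli.fintype_card_le_finrank
        rw [finrank_euclideanSpace_fin, Fintype.card_fin] at this
        omega
      rw [Fintype.not_linearIndependent_iff] at hnli
      obtain ⟨g, hg, i0, hi0⟩ := hnli
      have hR : (B.map (Int.castRingHom ℝ)).det = 0 := by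
        rw [← Matrix.exists_mulVec_eq_zero_iff]
        refine ⟨g, fun h => hi0 (by rw [h]; rfl), ?_⟩
        ext j
        rw [Matrix.mulVec, dotProduct, Pi.zero_apply]
        have h0 : inner ℝ (v (e j)) (∑ i, g i • v (e i)) = (0 : ℝ) := by
          rw [hg, inner_zero_right]
        rw [inner_sum] at h0
        have hterm : ∀ i ∈ (Finset.univ : Finset (Fin 14)),
            (B.map (Int.castRingHom ℝ)) j i * g i = (k : ℝ) * inner ℝ (v (e j)) (g i • v (e i)) := by
          intro i _
          rw [inner_smul_right, Matrix.map_apply]
          by_cases hji : j = i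
          · subst hji
            rw [hvi]
            simp [hB]
          · have hne : e j ≠ e i := fun h => hji (heinj h)
            rw [hSin _ _ hne]
            simp only [hB, if_neg hji, Int.coe_castRingHom]
            linear_combination (-(((S (e j) (e i) : ℤ) : ℝ) * g i)) * hck
        rw [Finset.sum_congr rfl hterm, ← Finset.mul_sum, h0, mul_zero]
      have : ((B.det : ℤ) : ℝ) = 0 := by
        rw [← hR, ← RingHom.mapMatrix_apply, ← RingHom.map_det]
        simp
      exact_mod_cast this
    have hmod : (B.map (Int.castRingHom (ZMod 2))) = JI := by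
      ext i j
      rw [Matrix.map_apply, JI]
      by_cases hij : i = j
      · simp only [hB, if_pos hij, Int.coe_castRingHom]
        exact (ZMod.intCast_zmod_eq_zero_iff_dvd k 2).2 (by exact_mod_cast hdvd)
      · have hne : e i ≠ e j := fun h => hij (heinj h)
        simp only [hB, if_neg hij, hS, if_neg hne, Int.coe_castRingHom]
        split_ifs
        · simp
        · decide
    have h1 := congrArg Matrix.det sq_one
    rw [Matrix.det_mul, Matrix.det_one, ← hmod, ← RingHom.mapMatrix_apply, ← RingHom.map_det,
      hdet] at h1
    simp at h1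
  have hk3 : k = 3 := by
    have h2 : k ≠ 2 := by rintro h; rw [h] at hodd; exact hodd (by norm_num)
    have h4 : k ≠ 4 := by rintro h; rw [h] at hodd; exact hodd (by norm_num)
    omega
  have hc3 : c = 1 / 3 := by
    rw [hk3] at hck
    push_cast at hck
    linarith
  exact no_third v hv (by rw [← hc3]; exact hvv)

end Pool.Agent.Helper31_Elliptic
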