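import Mathlib
import Pool.Agent.Helper31_Elliptic.Frame

set_option autoImplicit false

namespace Pool.Agent.Helper31_Elliptic

/-- The 34 points: two groups of seventeen. -/
@[ext] structure Pt where
  /-- the group of the point -/
  fst : Bool
  /-- the index of the point in its group -/
  snd : Fin 17
deriving DecidableEq, Fintype

theorem card_Pt : Fintype.card Pt = 34 := by
  decide +kernel

/-- Distance `arccos (1/3)` inside a group and `π/2` between the groups. -/
noncomputable def dst (x y : Pt) : ℝ :=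
  if x = y then 0 else if x.fst = y.fst then Real.arccos (1 / 3) else Real.pi / 2

theorem t_le : Real.arccos (1 / 3) ≤ Real.pi / 2 :=
  Real.arccos_le_pi_div_two.2 (by norm_num)

theorem t_ge : Real.pi / 4 ≤ Real.arccos (1 / 3) := by
  have h : (1 / 3 : ℝ) ≤ Real.cos (Real.pi / 4) := by
    rw [Real.cos_pi_div_four]
    have : (1 : ℝ) ≤ Real.sqrt 2 := by
      rw [Real.one_le_sqrt]; norm_num
    linarith
  have h2 := Real.arccos_le_arccos h
  rwa [Real.arccos_cos (by positivity) (by linarith [Real.pi_pos])] at h2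

theorem dst_le (x y : Pt) : dst x y ≤ Real.pi / 2 := by
  unfold dst
  split_ifs
  · positivity
  · exact t_le
  · exact le_rfl

theorem dst_ge (x y : Pt) (h : x ≠ y) : Real.pi / 4 ≤ dst x y := by
  unfold dst
  rw [if_neg h]
  split_ifs
  · exact t_ge
  · linarith [Real.pi_pos]

noncomputable instance : MetricSpace Pt where
  dist := dst
  dist_self x := by simp [dst]
  dist_comm x y := by
    unfold dst
    by_cases h : x = y
    · rw [if_pos h, if_pos h.symm]
    · rw [if_neg h, if_neg (Ne.symm h)]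
      by_cases h1 : x.fst = y.fst
      · rw [if_pos h1, if_pos h1.symm]
      · rw [if_neg h1, if_neg (Ne.symm h1)]
  dist_triangle x y z := by
    by_cases hxy : x = y
    · subst hxy
      simp [dst]
    · by_cases hyz : y = z
      · subst hyz
        simp [dst]
      · have h1 := dst_ge x y hxy
        have h2 := dst_ge y z hyz
        have h3 := dst_le x z
        linarith
  eq_of_dist_eq_zero := by
    intro x y h
    change dst x y = 0 at h
    by_contra hne
    have := dst_ge x y hne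
    have := Real.pi_pos
    linarith

theorem dist_def (x y : Pt) : dist x y = dst x y := rfl

/-- Half-spin vectors in the first six coordinates (sixteen of them, the last one is junk). -/
def uvec : Fin 17 → Fin 13 → ℤ := fun i =>
  (![![1, 1, 1, 1, 1, 1, 0, 0, 0, 0, 0, 0, 0],
    ![1, 1, 1, 1, -1, -1, 0, 0, 0, 0, 0, 0, 0],
    ![1, 1, 1, -1, 1, -1, 0, 0, 0, 0, 0, 0, 0],
    ![1, 1, 1, -1, -1, 1, 0, 0, 0, 0, 0, 0, 0],
    ![1, 1, -1, 1, 1, -1, 0, 0, 0, 0, 0, 0, 0],
    ![1, 1, -1, 1, -1, 1, 0, 0, 0, 0, 0, 0, 0],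
    ![1, 1, -1, -1, 1, 1, 0, 0, 0, 0, 0, 0, 0],
    ![1, 1, -1, -1, -1, -1, 0, 0, 0, 0, 0, 0, 0],
    ![1, -1, 1, 1, 1, -1, 0, 0, 0, 0, 0, 0, 0],
    ![1, -1, 1, 1, -1, 1, 0, 0, 0, 0, 0, 0, 0],
    ![1, -1, 1, -1, 1, 1, 0, 0, 0, 0, 0, 0, 0],
    ![1, -1, 1, -1, -1, -1, 0, 0, 0, 0, 0, 0, 0],
    ![1, -1, -1, 1, 1, 1, 0, 0, 0, 0, 0, 0, 0],
    ![1, -1, -1, 1, -1, -1, 0, 0, 0, 0, 0, 0, 0],
    ![1, -1, -1, -1, 1, -1, 0, 0, 0, 0, 0, 0, 0],
    ![1, -1, -1, -1, -1, 1, 0, 0, 0, 0, 0, 0, 0],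
    ![0, 0, 0, 0, 0, 0, 0, 0, 0, 0, 0, 0, 0]] : Fin 17 → Fin 13 → ℤ) i

/-- Seventeen signed Fano lines in the last seven coordinates. -/
def wvec : Fin 17 → Fin 13 → ℤ := fun i =>
  (![![0, 0, 0, 0, 0, 0, 1, 1, 1, 0, 0, 0, 0],
    ![0, 0, 0, 0, 0, 0, 1, 1, -1, 0, 0, 0, 0],
    ![0, 0, 0, 0, 0, 0, 1, -1, 1, 0, 0, 0, 0],
    ![0, 0, 0, 0, 0, 0, 1, -1, -1, 0, 0, 0, 0],
    ![0, 0, 0, 0, 0, 0, 1, 0, 0, 1, 1, 0, 0],
    ![0, 0, 0, 0, 0, 0, 1, 0, 0, 1, -1, 0, 0],
    ![0, 0, 0, 0, 0, 0, 1, 0, 0, -1, 1, 0, 0],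
    ![0, 0, 0, 0, 0, 0, 1, 0, 0, -1, -1, 0, 0],
    ![0, 0, 0, 0, 0, 0, 1, 0, 0, 0, 0, 1, 1],
    ![0, 0, 0, 0, 0, 0, 1, 0, 0, 0, 0, 1, -1],
    ![0, 0, 0, 0, 0, 0, 1, 0, 0, 0, 0, -1, 1],
    ![0, 0, 0, 0, 0, 0, 1, 0, 0, 0, 0, -1, -1],
    ![0, 0, 0, 0, 0, 0, 0, 1, 0, 1, 0, 1, 0],
    ![0, 0, 0, 0, 0, 0, 0, 1, 0, 1, 0, -1, 0],
    ![0, 0, 0, 0, 0, 0, 0, 1, 0, -1, 0, 1, 0],
    ![0, 0, 0, 0, 0, 0, 0, 1, 0, -1, 0, -1, 0],
    ![0, 0, 0, 0, 0, 0, 0, 1, 0, 0, 1, 0, 1]] : Fin 17 → Fin 13 → ℤ) i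

theorem uvec_self : ∀ i : Fin 17, i ≠ 16 → ∑ k, uvec i k * uvec i k = 6 := by decide +kernel
theorem uvec_ne : ∀ i j : Fin 17, i ≠ 16 → j ≠ 16 → i ≠ j →
    |∑ k, uvec i k * uvec j k| = 2 := by decide +kernel
theorem wvec_self : ∀ i : Fin 17, ∑ k, wvec i k * wvec i k = 3 := by decide +kernel
theorem wvec_ne : ∀ i j : Fin 17, i ≠ j → |∑ k, wvec i k * wvec j k| = 1 := by decide +kernel
theorem uw_zero : ∀ i j : Fin 17, ∑ k, uvec i k * wvec j k = 0 := by decide +kernel
theorem wu_zero : ∀ i j : Fin 17, ∑ k, wvec i k * uvec j k = 0 := by decide +kernel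

/-- A scaled integer vector as a point of Euclidean space. -/
noncomputable def emb (s : ℝ) (a : Fin 13 → ℤ) : EuclideanSpace ℝ (Fin 13) :=
  WithLp.toLp 2 (fun k => s * (a k : ℝ))

theorem emb_inner (s t : ℝ) (a b : Fin 13 → ℤ) :
    inner ℝ (emb s a) (emb t b) = s * t * ((∑ k, a k * b k : ℤ) : ℝ) := by
  rw [PiLp.inner_apply]
  push_cast
  rw [Finset.mul_sum]
  apply Finset.sum_congr rfl
  intro k _
  simp [emb]
  ring

theorem sqrt6 : (Real.sqrt 6)⁻¹ * (Real.sqrt 6)⁻¹ = 1 / 6 := by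
  rw [← mul_inv, Real.mul_self_sqrt (by norm_num)]; norm_num

theorem sqrt3 : (Real.sqrt 3)⁻¹ * (Real.sqrt 3)⁻¹ = 1 / 3 := by
  rw [← mul_inv, Real.mul_self_sqrt (by norm_num)]; norm_num

/-- The placement of all points but `p`. -/
noncomputable def place (p : Pt) (x : Pt) : EuclideanSpace ℝ (Fin 13) :=
  if x.fst = p.fst then emb (Real.sqrt 6)⁻¹ (uvec (Equiv.swap p.snd 16 x.snd))
  else emb (Real.sqrt 3)⁻¹ (wvec x.snd)

theorem swap_ne (k j : Fin 17) (h : j ≠ k) : Equiv.swap k 16 j ≠ 16 := by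
  intro h1
  apply h
  have h2 : Equiv.swap k 16 j = Equiv.swap k 16 k := by rw [h1, Equiv.swap_apply_left]
  exact (Equiv.swap k 16).injective h2

theorem place_norm (p x : Pt) (h : x ≠ p) : ‖place p x‖ = 1 := by
  have h2 : ‖place p x‖ ^ 2 = 1 := by
    rw [← real_inner_self_eq_norm_sq, place]
    split_ifs with h1
    · have hne : x.snd ≠ p.snd := fun h2 => h (Pt.ext h1 h2)
      rw [emb_inner, uvec_self _ (swap_ne _ _ hne), sqrt6]
      norm_num
    · rw [emb_inner, wvec_self, sqrt3]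
      norm_num
  rw [← sq_eq_sq₀ (norm_nonneg _) zero_le_one, h2]
  norm_num

theorem place_inner (p x y : Pt) (hx : x ≠ p) (hy : y ≠ p) :
    Real.arccos |inner ℝ (place p x) (place p y)| = dist x y := by
  rw [dist_def, dst]
  by_cases hxy : x = y
  · subst hxy
    rw [if_pos rfl, real_inner_self_eq_norm_sq, place_norm p x hx]
    norm_num
  · rw [if_neg hxy]
    by_cases hg : x.fst = y.fst
    · rw [if_pos hg]
      congr 1
      have hne2 : x.snd ≠ y.snd := fun h2 => hxy (Pt.ext hg h2)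
      by_cases hp : x.fst = p.fst
      · have hx2 : x.snd ≠ p.snd := fun h2 => hx (Pt.ext hp h2)
        have hy2 : y.snd ≠ p.snd := fun h2 => hy (Pt.ext (hg.symm.trans hp) h2)
        rw [place, place, if_pos hp, if_pos (hg.symm.trans hp), emb_inner, sqrt6, abs_mul,
          ← Int.cast_abs, uvec_ne _ _ (swap_ne _ _ hx2) (swap_ne _ _ hy2)
            (fun h => hne2 ((Equiv.swap _ _).injective h))]
        norm_num
      · have hp' : ¬ y.fst = p.fst := fun h => hp (hg.trans h)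
        rw [place, place, if_neg hp, if_neg hp', emb_inner, sqrt3, abs_mul,
          ← Int.cast_abs, wvec_ne _ _ hne2]
        norm_num
    · rw [if_neg hg]
      have h0 : inner ℝ (place p x) (place p y) = (0 : ℝ) := by
        by_cases hp : x.fst = p.fst
        · have hp' : ¬ y.fst = p.fst := fun h => hg (hp.trans h.symm)
          rw [place, place, if_pos hp, if_neg hp', emb_inner, uw_zero]
          simp
        · have hp' : y.fst = p.fst := by
            rcases x with ⟨a, _⟩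
            rcases y with ⟨b, _⟩
            rcases p with ⟨c, _⟩
            simp only at hp hg ⊢
            revert hp hg
            cases a <;> cases b <;> cases c <;> simp
          rw [place, place, if_neg hp, if_pos hp', emb_inner, wu_zero]
          simp
      rw [h0, abs_zero, Real.arccos_zero]

/-- Seventeen unit vectors at mutual angle `arccos (1/3)` span at least seven dimensions. -/
theorem seven_le (V : Submodule ℝ (EuclideanSpace ℝ (Fin 13)))
    (g : Fin 17 → EuclideanSpace ℝ (Fin 13)) (hg : ∀ i, g i ∈ V) (hn : ∀ i, ‖g i‖ = 1)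
    (hin : ∀ i j, i ≠ j → |inner ℝ (g i) (g j)| = 1 / 3) : 7 ≤ Module.finrank ℝ V := by
  set B := stdOrthonormalBasis ℝ V with hB
  set x : Fin 17 → EuclideanSpace ℝ (Fin (Module.finrank ℝ V)) :=
    fun i => B.repr ⟨g i, hg i⟩ with hx
  have hnx : ∀ i, ‖x i‖ = 1 := by
    intro i
    simp only [hx]
    rw [LinearIsometryEquiv.norm_map]
    exact hn i
  have hix : ∀ i j, inner ℝ (x i) (x j) = inner ℝ (g i) (g j) := by
    intro i j
    simp only [hx]
    rw [LinearIsometryEquiv.inner_map_map]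
    rfl
  have hf := frame_bound Finset.univ _ x
  have h1 : ∑ i, ‖x i‖ ^ 2 = (17 : ℝ) := by
    simp [hnx]
  have h2 : ∑ i, ∑ j, (inner ℝ (x i) (x j)) ^ 2 = (17 : ℝ) * (1 + 16 / 9) := by
    have : ∀ i ∈ (Finset.univ : Finset (Fin 17)), ∑ j, (inner ℝ (x i) (x j)) ^ 2
        = (1 + 16 / 9 : ℝ) := by
      intro i _
      rw [← Finset.add_sum_erase Finset.univ _ (Finset.mem_univ i), real_inner_self_eq_norm_sq,
        hnx i]
      have : ∀ j ∈ Finset.univ.erase i, (inner ℝ (x i) (x j)) ^ 2 = (1 / 9 : ℝ) := by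
        intro j hj
        rw [Finset.mem_erase] at hj
        rw [← sq_abs, hix, hin i j (Ne.symm hj.1)]
        norm_num
      rw [Finset.sum_congr rfl this, Finset.sum_const, Finset.card_erase_of_mem
        (Finset.mem_univ i), Finset.card_univ, Fintype.card_fin, nsmul_eq_mul]
      norm_num
    rw [Finset.sum_congr rfl this, Finset.sum_const, Finset.card_univ, Fintype.card_fin,
      nsmul_eq_mul]
    norm_num
  rw [h1, h2] at hf
  by_contra hcon
  push Not at hcon
  have h3 : (Module.finrank ℝ V : ℝ) ≤ 6 := by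
    have : Module.finrank ℝ V ≤ 6 := by omega
    exact_mod_cast this
  nlinarith

/-- The 34-point space has no placement in thirteen dimensions. -/
theorem no_place (f : Pt → EuclideanSpace ℝ (Fin 13)) (hn : ∀ x, ‖f x‖ = 1)
    (hd : ∀ x y, Real.arccos |inner ℝ (f x) (f y)| = dist x y) : False := by
  have habs : ∀ x y, |inner ℝ (f x) (f y)| = Real.cos (dist x y) := by
    intro x y
    rw [← hd x y, Real.cos_arccos]
    · linarith [abs_nonneg (inner ℝ (f x) (f y))]
    · have := abs_real_inner_le_norm (f x) (f y)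
      rwa [hn, hn, one_mul] at this
  have hsame : ∀ (b : Bool) (i j : Fin 17), i ≠ j →
      |inner ℝ (f ⟨b, i⟩) (f ⟨b, j⟩)| = 1 / 3 := by
    intro b i j hij
    rw [habs, dist_def, dst, if_neg, if_pos rfl, Real.cos_arccos (by norm_num) (by norm_num)]
    intro h
    exact hij (congrArg Pt.snd h)
  have hdiff : ∀ i j : Fin 17, inner ℝ (f ⟨false, i⟩) (f ⟨true, j⟩) = (0 : ℝ) := by
    intro i j
    rw [← abs_eq_zero, habs, dist_def, dst, if_neg, if_neg, Real.cos_pi_div_two]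
    · intro h
      exact Bool.false_ne_true h
    · intro h
      exact Bool.false_ne_true (congrArg Pt.fst h)
  set V1 := Submodule.span ℝ (Set.range (fun i : Fin 17 => f ⟨false, i⟩)) with hV1
  set V2 := Submodule.span ℝ (Set.range (fun i : Fin 17 => f ⟨true, i⟩)) with hV2
  have h1 : 7 ≤ Module.finrank ℝ V1 := seven_le V1 (fun i => f ⟨false, i⟩)
    (fun i => Submodule.subset_span ⟨i, rfl⟩) (fun i => hn _) (hsame false)
  have h2 : 7 ≤ Module.finrank ℝ V2 := seven_le V2 (fun i => f ⟨true, i⟩)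
    (fun i => Submodule.subset_span ⟨i, rfl⟩) (fun i => hn _) (hsame true)
  have hort : V1 ⟂ V2 := by
    rw [hV1, hV2, Submodule.isOrtho_span]
    rintro _ ⟨i, rfl⟩ _ ⟨j, rfl⟩
    exact hdiff i j
  have hfr := Submodule.finrank_add_finrank_le_of_disjoint hort.disjoint
  rw [finrank_euclideanSpace_fin] at hfr
  omega

end Pool.Agent.Helper31_Elliptic
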